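import Mathlib

set_option autoImplicit false

/-!
# Projective algebras of plane sets

Definitions and the coding lemma: for a plane set `s` the terms `CD s n` single out, inside every
projective algebra containing `s`, sets that are preserved by injective homomorphisms, and
`code s` is a set of natural numbers that is an invariant of `s`; every set of natural numbers is
the code of some plane set.
-/

namespace Pool.Agent.TH782.ProjAlg

/-- The `x`-axis. -/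
def axX : Set (ℝ × ℝ) := {p | p.2 = 0}

/-- The `y`-axis. -/
def axY : Set (ℝ × ℝ) := {p | p.1 = 0}

/-- The projection of a plane set to the `x`-axis. -/
def pi1 (S : Set (ℝ × ℝ)) : Set (ℝ × ℝ) := {p | p.2 = 0 ∧ ∃ y, (p.1, y) ∈ S}

/-- The projection of a plane set to the `y`-axis. -/
def pi2 (S : Set (ℝ × ℝ)) : Set (ℝ × ℝ) := {p | p.1 = 0 ∧ ∃ x, (x, p.2) ∈ S}

/-- The direct product of a subset `A` of the `x`-axis and a subset `B` of the `y`-axis. -/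
def tens (A B : Set (ℝ × ℝ)) : Set (ℝ × ℝ) := {p | (p.1, 0) ∈ A ∧ (0, p.2) ∈ B}

/-- A family of plane sets is a projective algebra. -/
structure IsProjAlg (F : Set (Set (ℝ × ℝ))) : Prop where
  compl : ∀ S ∈ F, Sᶜ ∈ F
  union : ∀ S ∈ F, ∀ T ∈ F, S ∪ T ∈ F
  pi1 : ∀ S ∈ F, pi1 S ∈ F
  pi2 : ∀ S ∈ F, pi2 S ∈ F
  tens : ∀ A ∈ F, ∀ B ∈ F, A ⊆ axX → B ⊆ axY → tens A B ∈ F

/-- `φ` commutes with the operations of the projective algebra `F`. -/
structure IsHom {F : Set (Set (ℝ × ℝ))} (φ : F → Set (ℝ × ℝ)) : Prop where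
  compl : ∀ A B : F, (B : Set (ℝ × ℝ)) = (A : Set (ℝ × ℝ))ᶜ → φ B = (φ A)ᶜ
  union : ∀ A B C : F, (C : Set (ℝ × ℝ)) = (A : Set (ℝ × ℝ)) ∪ B → φ C = φ A ∪ φ B
  pi1 : ∀ A B : F, (B : Set (ℝ × ℝ)) = pi1 A → φ B = pi1 (φ A)
  pi2 : ∀ A B : F, (B : Set (ℝ × ℝ)) = pi2 A → φ B = pi2 (φ A)
  tens : ∀ A B C : F, (A : Set (ℝ × ℝ)) ⊆ axX → (B : Set (ℝ × ℝ)) ⊆ axY →
    (C : Set (ℝ × ℝ)) = tens A B → φ C = tens (φ A) (φ B)

/-! ### Basic facts -/

lemma pi1_univ : pi1 Set.univ = axX := by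
  ext p; simp [pi1, axX]

lemma pi2_univ : pi2 Set.univ = axY := by
  ext p; simp [pi2, axY]

lemma pi1_sub (S : Set (ℝ × ℝ)) : pi1 S ⊆ axX := fun _ h => h.1

lemma pi2_sub (S : Set (ℝ × ℝ)) : pi2 S ⊆ axY := fun _ h => h.1

lemma tens_inter (A B : Set (ℝ × ℝ)) : tens (A ∩ axX) (B ∩ axY) = tens A B := by
  ext p; simp [tens, axX, axY]

lemma pi1_eq_iff {A : Set (ℝ × ℝ)} : pi1 A = A ↔ A ⊆ axX := by
  constructor
  · intro h
    rw [← h]
    exact pi1_sub A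
  · intro h
    ext p
    constructor
    · rintro ⟨h1, y, h2⟩
      have h3 : y = 0 := h h2
      rw [h3, ← h1] at h2
      exact h2
    · intro hp
      exact ⟨h hp, p.2, hp⟩

lemma pi2_eq_iff {A : Set (ℝ × ℝ)} : pi2 A = A ↔ A ⊆ axY := by
  constructor
  · intro h
    rw [← h]
    exact pi2_sub A
  · intro h
    ext p
    constructor
    · rintro ⟨h1, x, h2⟩
      have h3 : x = 0 := h h2
      rw [h3, ← h1] at h2
      exact h2
    · intro hp
      exact ⟨h hp, p.1, hp⟩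

section closure

variable {F : Set (Set (ℝ × ℝ))} (hF : IsProjAlg F) {A B : Set (ℝ × ℝ)}

include hF

lemma IsProjAlg.univ (hA : A ∈ F) : Set.univ ∈ F := by
  have := hF.union _ hA _ (hF.compl _ hA)
  rwa [Set.union_compl_self] at this

lemma IsProjAlg.inter (hA : A ∈ F) (hB : B ∈ F) : A ∩ B ∈ F := by
  have := hF.compl _ (hF.union _ (hF.compl _ hA) _ (hF.compl _ hB))
  rwa [Set.compl_union, compl_compl, compl_compl] at this

lemma IsProjAlg.diff (hA : A ∈ F) (hB : B ∈ F) : A \ B ∈ F := by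
  rw [Set.sdiff_eq]
  exact hF.inter hA (hF.compl _ hB)

lemma IsProjAlg.axX_mem (hA : A ∈ F) : axX ∈ F := by
  rw [← pi1_univ]; exact hF.pi1 _ (hF.univ hA)

lemma IsProjAlg.axY_mem (hA : A ∈ F) : axY ∈ F := by
  rw [← pi2_univ]; exact hF.pi2 _ (hF.univ hA)

lemma IsProjAlg.tens' (hA : A ∈ F) (hB : B ∈ F) : ProjAlg.tens A B ∈ F := by
  rw [← tens_inter]
  exact hF.tens _ (hF.inter hA (hF.axX_mem hA)) _ (hF.inter hB (hF.axY_mem hB))
    Set.inter_subset_right Set.inter_subset_right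

end closure

/-! ### The code of a plane set -/

/-- The terms `C_n, D_n`. -/
def CD (s : Set (ℝ × ℝ)) : ℕ → Set (ℝ × ℝ) × Set (ℝ × ℝ)
  | 0 => (axX ∩ axY, axX ∩ axY)
  | n + 1 =>
    ((pi1 (s ∩ tens axX (CD s n).2) \ (CD s n).1) \ (axX ∩ axY),
      pi2 (s ∩ tens ((pi1 (s ∩ tens axX (CD s n).2) \ (CD s n).1) \ (axX ∩ axY)) axY) \
        (CD s n).2)

/-- The code of a plane set. -/
def code (s : Set (ℝ × ℝ)) : Set ℕ := {n | (s ∩ (CD s n).2).Nonempty}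

section hom

variable {F : Set (Set (ℝ × ℝ))} {φ : F → Set (ℝ × ℝ)}

/-- The graph of `φ`. -/
def Gph (φ : F → Set (ℝ × ℝ)) (A B : Set (ℝ × ℝ)) : Prop := ∃ h : A ∈ F, φ ⟨A, h⟩ = B

variable (hF : IsProjAlg F) (hφ : IsHom φ) {A A' B B' : Set (ℝ × ℝ)}

include hF hφ

lemma Gph.compl (h : Gph φ A B) : Gph φ Aᶜ Bᶜ := by
  obtain ⟨h1, h2⟩ := h
  exact ⟨hF.compl _ h1, by rw [← h2]; exact hφ.compl ⟨A, h1⟩ _ rfl⟩

lemma Gph.union (h : Gph φ A B) (h' : Gph φ A' B') : Gph φ (A ∪ A') (B ∪ B') := by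
  obtain ⟨h1, h2⟩ := h
  obtain ⟨h3, h4⟩ := h'
  exact ⟨hF.union _ h1 _ h3, by rw [← h2, ← h4]; exact hφ.union ⟨A, h1⟩ ⟨A', h3⟩ _ rfl⟩

lemma Gph.inter (h : Gph φ A B) (h' : Gph φ A' B') : Gph φ (A ∩ A') (B ∩ B') := by
  have := ((h.compl hF hφ).union hF hφ (h'.compl hF hφ)).compl hF hφ
  rwa [Set.compl_union, compl_compl, compl_compl, Set.compl_union, compl_compl, compl_compl]
    at this

lemma Gph.diff (h : Gph φ A B) (h' : Gph φ A' B') : Gph φ (A \ A') (B \ B') := by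
  rw [Set.sdiff_eq, Set.sdiff_eq]
  exact h.inter hF hφ (h'.compl hF hφ)

lemma Gph.univ (h : Gph φ A B) : Gph φ Set.univ Set.univ := by
  have := h.union hF hφ (h.compl hF hφ)
  rwa [Set.union_compl_self, Set.union_compl_self] at this

lemma Gph.empty (h : Gph φ A B) : Gph φ ∅ ∅ := by
  have := (h.univ hF hφ).compl hF hφ
  rwa [Set.compl_univ] at this

lemma Gph.pi1 (h : Gph φ A B) : Gph φ (pi1 A) (pi1 B) := by
  obtain ⟨h1, h2⟩ := h
  exact ⟨hF.pi1 _ h1, by rw [← h2]; exact hφ.pi1 ⟨A, h1⟩ _ rfl⟩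

lemma Gph.pi2 (h : Gph φ A B) : Gph φ (pi2 A) (pi2 B) := by
  obtain ⟨h1, h2⟩ := h
  exact ⟨hF.pi2 _ h1, by rw [← h2]; exact hφ.pi2 ⟨A, h1⟩ _ rfl⟩

lemma Gph.axX (h : Gph φ A B) : Gph φ axX axX := by
  have := (h.univ hF hφ).pi1 hF hφ
  rwa [pi1_univ] at this

lemma Gph.axY (h : Gph φ A B) : Gph φ axY axY := by
  have := (h.univ hF hφ).pi2 hF hφ
  rwa [pi2_univ] at this

lemma Gph.tens (h : Gph φ A B) (h' : Gph φ A' B') : Gph φ (tens A A') (tens B B') := by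
  obtain ⟨h1, h2⟩ := h.inter hF hφ (h.axX hF hφ)
  obtain ⟨h3, h4⟩ := h'.inter hF hφ (h'.axY hF hφ)
  have h5 := hφ.tens ⟨_, h1⟩ ⟨_, h3⟩
    ⟨_, hF.tens _ h1 _ h3 Set.inter_subset_right Set.inter_subset_right⟩
    Set.inter_subset_right Set.inter_subset_right rfl
  rw [h2, h4, tens_inter B B'] at h5
  have h6 := tens_inter A A'
  refine ⟨?_, ?_⟩
  · rw [← h6]
    exact hF.tens _ h1 _ h3 Set.inter_subset_right Set.inter_subset_right
  · rw [← h5]
    congr 1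
    exact Subtype.ext h6.symm

lemma Gph.CD (h : Gph φ A B) (n : ℕ) :
    Gph φ (CD A n).1 (CD B n).1 ∧ Gph φ (CD A n).2 (CD B n).2 := by
  have hX := h.axX hF hφ
  have hY := h.axY hF hφ
  have hO := hX.inter hF hφ hY
  induction n with
  | zero => exact ⟨hO, hO⟩
  | succ n ih =>
    have h1 : Gph φ (ProjAlg.CD A (n + 1)).1 (ProjAlg.CD B (n + 1)).1 :=
      (((h.inter hF hφ (hX.tens hF hφ ih.2)).pi1 hF hφ).diff hF hφ ih.1).diff hF hφ hO
    exact ⟨h1, ((h.inter hF hφ (h1.tens hF hφ hY)).pi2 hF hφ).diff hF hφ ih.2⟩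

lemma Gph.empty_iff (hinj : Function.Injective φ) (h : Gph φ A B) : A = ∅ ↔ B = ∅ := by
  obtain ⟨h1, h2⟩ := h
  obtain ⟨h3, h4⟩ := Gph.empty (A := A) (B := B) hF hφ ⟨h1, h2⟩
  constructor
  · rintro rfl
    rw [← h2, h4]
  · rintro rfl
    rw [← h4] at h2
    exact congrArg Subtype.val (hinj h2)

/-- The code of a plane set is preserved by injective homomorphisms. -/
theorem code_eq (hinj : Function.Injective φ) (s : F) : code (φ s) = code s := by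
  have h : Gph φ s (φ s) := ⟨s.2, rfl⟩
  ext n
  have h1 := (h.inter hF hφ (h.CD hF hφ n).2).empty_iff hF hφ hinj
  simp only [code, Set.mem_ofPred_eq, Set.nonempty_iff_ne_empty, ne_eq]
  rw [h1]

end hom

/-! ### Every set of natural numbers is a code -/

/-- The plane set with code `Z`: the points `(0, n)` for `n ∈ Z` and the edges `(n + 1, n)`,
`(n + 1, n + 1)` of a path. -/
def SZ (Z : Set ℕ) : Set (ℝ × ℝ) :=
  {p | (p.1 = 0 ∧ ∃ n ∈ Z, p.2 = (n : ℝ)) ∨ ∃ n : ℕ, p.1 = (n : ℝ) + 1 ∧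
    (p.2 = n ∨ p.2 = (n : ℝ) + 1)}

lemma CD_SZ (Z : Set ℕ) (n : ℕ) :
    (CD (SZ Z) n).1 = {((n : ℝ), 0)} ∧ (CD (SZ Z) n).2 = {(0, (n : ℝ))} := by
  induction n with
  | zero =>
    have : (axX ∩ axY : Set (ℝ × ℝ)) = {(0, 0)} := by
      ext ⟨x, y⟩
      simp [axX, axY, and_comm]
    simp only [CD, this, Nat.cast_zero, and_self]
  | succ n ih =>
    have h1 : (CD (SZ Z) (n + 1)).1 = {(((n + 1 : ℕ) : ℝ), 0)} := by
      simp only [CD, ih.1, ih.2]
      ext ⟨x, y⟩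
      simp only [pi1, SZ, tens, axX, axY, Set.mem_sdiff, Set.mem_inter_iff, Set.mem_ofPred_eq,
        Set.mem_singleton_iff, Prod.mk.injEq, true_and]
      push_cast
      constructor
      · rintro ⟨⟨⟨rfl, hz, -⟩, h2⟩, h3⟩
        refine ⟨?_, rfl⟩
        rcases hz with ⟨rfl, -⟩ | ⟨m, rfl, hm⟩
        · exact absurd ⟨rfl, rfl⟩ h3
        · rcases hm with hm | hm
          · rw [hm]
          · exfalso
            apply h2
            exact ⟨hm.symm, rfl⟩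
      · rintro ⟨rfl, rfl⟩
        refine ⟨⟨⟨rfl, Or.inr ⟨n, rfl, Or.inl rfl⟩, rfl⟩, ?_⟩, ?_⟩
        · intro h
          linarith [h.1]
        · intro h
          have h4 : (0 : ℝ) ≤ n := n.cast_nonneg
          linarith [h.2]
    refine ⟨h1, ?_⟩
    have h2 : (CD (SZ Z) (n + 1)).2 =
        pi2 (SZ Z ∩ tens (CD (SZ Z) (n + 1)).1 axY) \ (CD (SZ Z) n).2 := rfl
    rw [h2, h1, ih.2]
    ext ⟨x, y⟩
    simp only [pi2, SZ, tens, axY, Set.mem_sdiff, Set.mem_inter_iff, Set.mem_ofPred_eq,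
      Set.mem_singleton_iff, Prod.mk.injEq, and_true]
    push_cast
    constructor
    · rintro ⟨⟨rfl, hz, -⟩, h3⟩
      refine ⟨rfl, ?_⟩
      rcases hz with ⟨h4, -⟩ | ⟨m, h4, hm⟩
      · have h5 : (0 : ℝ) ≤ n := n.cast_nonneg
        linarith
      · have h5 : (m : ℝ) = n := by linarith
        rcases hm with hm | hm
        · exact absurd ⟨rfl, hm.trans h5⟩ h3
        · rw [hm, h5]
    · rintro ⟨rfl, rfl⟩
      refine ⟨⟨rfl, Or.inr ⟨n, rfl, Or.inr rfl⟩, rfl⟩, ?_⟩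
      intro h
      linarith [h.2]

theorem code_SZ (Z : Set ℕ) : code (SZ Z) = Z := by
  ext n
  simp only [code, Set.mem_ofPred_eq, (CD_SZ Z n).2]
  rw [Set.inter_nonempty]
  constructor
  · rintro ⟨p, h1, rfl⟩
    rcases h1 with ⟨-, m, hm, h2⟩ | ⟨m, h2, -⟩
    · have : n = m := by
        have h3 : (n : ℝ) = m := h2
        exact_mod_cast h3
      rwa [this]
    · have h5 : (0 : ℝ) ≤ m := m.cast_nonneg
      simp only at h2
      linarith
  · intro h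
    exact ⟨(0, (n : ℝ)), Or.inl ⟨rfl, n, h, rfl⟩, rfl⟩

end Pool.Agent.TH782.ProjAlg
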